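import Pool.Agent.H771R2.SingerDS

/-!
# Project SY, package SIN: Singer's theorem for a prime `p` and `m ≥ 3`
-/

set_option autoImplicit false

namespace Pool.Agent.U454.SY

open Module

section

variable (p : ℕ) [Fact p.Prime] (m : ℕ)

/-- the scalars -/
noncomputable def HH : Subgroup (GaloisField p m)ˣ :=
  (Units.map (algebraMap (ZMod p) (GaloisField p m)).toMonoidHom).range

/-- the trace -/
noncomputable def tr : GaloisField p m →ₗ[ZMod p] ZMod p :=
  Algebra.trace (ZMod p) (GaloisField p m)

theorem tr_ne : tr p m ≠ 0 := Algebra.trace_ne_zero _ _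

/-- `y ↦ tr (c y)` -/
noncomputable def trc (c : GaloisField p m) : GaloisField p m →ₗ[ZMod p] ZMod p :=
  (tr p m).comp (LinearMap.mulLeft (ZMod p) c)

theorem trc_apply (c y : GaloisField p m) : trc p m c y = tr p m (c * y) := rfl

theorem card_HH : Nat.card (HH p m) = p - 1 := by
  have hinj : Function.Injective (Units.map (algebraMap (ZMod p) (GaloisField p m)).toMonoidHom) := by
    apply Units.map_injective
    exact (algebraMap (ZMod p) (GaloisField p m)).injective
  have := Nat.card_congr (MonoidHom.ofInjective hinj).toEquiv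
  unfold HH
  rw [← this, Nat.card_eq_fintype_card, ZMod.card_units]

theorem tr_iff (c x y : (GaloisField p m)ˣ)
    (h : (QuotientGroup.mk x : (GaloisField p m)ˣ ⧸ HH p m) = QuotientGroup.mk y) :
    tr p m (c * x) = 0 ↔ tr p m (c * y) = 0 := by
  rw [QuotientGroup.eq] at h
  obtain ⟨a, ha⟩ := h
  have h1 : y = x * (Units.map (algebraMap (ZMod p) (GaloisField p m)).toMonoidHom a) := by
    rw [ha]
    group
  have h2 : (y : GaloisField p m) = x * algebraMap (ZMod p) (GaloisField p m) a := by
    rw [h1]
    rfl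
  have h3 : (c : GaloisField p m) * y = (a : ZMod p) • ((c : GaloisField p m) * x) := by
    rw [h2, Algebra.smul_def]
    ring
  rw [h3, map_smul, smul_eq_mul, mul_eq_zero]
  constructor
  · exact Or.inr
  · rintro (h4 | h4)
    · exact absurd h4 a.ne_zero
    · exact h4

theorem card_ker (hm : m ≠ 0) {W : Type} [AddCommGroup W] [Module (ZMod p) W]
    [Module.Finite (ZMod p) W] (φ : GaloisField p m →ₗ[ZMod p] W) (hφ : Function.Surjective φ) :
    {x : (GaloisField p m)ˣ | φ x = 0}.ncard = p ^ (m - finrank (ZMod p) W) - 1 := by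
  have h1 : Nat.card (LinearMap.ker φ) = p ^ (m - finrank (ZMod p) W) := by
    rw [Module.natCard_eq_pow_finrank (K := ZMod p), Nat.card_zmod]
    congr 1
    have h2 := LinearMap.finrank_range_add_finrank_ker φ
    rw [LinearMap.range_eq_top.2 hφ, finrank_top, GaloisField.finrank p hm] at h2
    omega
  have h3 : ({x : GaloisField p m | φ x = 0} \ {0}).ncard = p ^ (m - finrank (ZMod p) W) - 1 := by
    rw [Set.ncard_sdiff_singleton_of_mem (show (0 : GaloisField p m) ∈ {x | φ x = 0} from map_zero φ),
      ← h1]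
    rfl
  rw [← h3, ← Set.ncard_image_of_injective _ (Units.val_injective (α := GaloisField p m))]
  congr 1
  ext x
  simp only [Set.mem_image, Set.mem_ofPred_eq, Set.mem_sdiff, Set.mem_singleton_iff]
  constructor
  · rintro ⟨u, hu, rfl⟩
    exact ⟨hu, u.ne_zero⟩
  · rintro ⟨hx, hx0⟩
    exact ⟨Units.mk0 x hx0, hx, rfl⟩

theorem card_pre (t : Set ((GaloisField p m)ˣ ⧸ HH p m)) :
    (QuotientGroup.mk ⁻¹' t : Set (GaloisField p m)ˣ).ncard = (p - 1) * t.ncard := by
  have h := QuotientGroup.card_preimage_mk (HH p m) t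
  rw [card_HH] at h
  exact h

theorem surj2 (c : (GaloisField p m)ˣ)
    (hc : (QuotientGroup.mk c : (GaloisField p m)ˣ ⧸ HH p m) ≠ 1) :
    Function.Surjective ((tr p m).prod (trc p m c)) := by
  rw [← LinearMap.range_eq_top]
  by_contra hne
  obtain ⟨f, hf, hle⟩ := Submodule.exists_le_ker_of_lt_top _ (lt_top_iff_ne_top.2 hne)
  set a := f (1, 0) with ha
  set b := f (0, 1) with hb
  have hfuv : ∀ u v : ZMod p, f (u, v) = u * a + v * b := by
    intro u v
    have e : ((u, v) : ZMod p × ZMod p) = u • (1, 0) + v • (0, 1) := by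
      simp
    rw [e, map_add, map_smul, map_smul, smul_eq_mul, smul_eq_mul]
  have h1 : ∀ y : GaloisField p m, tr p m y * a + tr p m (c * y) * b = 0 := by
    intro y
    have h2 : f (tr p m y, trc p m c y) = 0 := hle ⟨y, rfl⟩
    rw [hfuv] at h2
    exact h2
  set z : GaloisField p m := algebraMap (ZMod p) _ a + algebraMap (ZMod p) _ b * c with hz
  have h3 : ∀ y : GaloisField p m, tr p m (z * y) = 0 := by
    intro y
    have e : z * y = a • y + b • ((c : GaloisField p m) * y) := by
      rw [hz, Algebra.smul_def, Algebra.smul_def]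
      ring
    rw [e, map_add, map_smul, map_smul, smul_eq_mul, smul_eq_mul, ← h1 y]
    ring
  have hz0 : z = 0 := by
    by_contra hz0
    apply tr_ne p m
    ext y
    have := h3 (z⁻¹ * y)
    rw [mul_inv_cancel_left₀ hz0] at this
    rw [this]
    rfl
  by_cases hb0 : b = 0
  · have ha0 : a = 0 := by
      rw [hz, hb0, map_zero, zero_mul, add_zero] at hz0
      exact (map_eq_zero _).1 hz0
    apply hf
    ext
    · simpa using ha0
    · simpa using hb0
  · apply hc
    rw [QuotientGroup.eq_one_iff]
    have hcne : -a / b ≠ 0 := by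
      intro h0
      have ha0 : a = 0 := by
        rcases div_eq_zero_iff.1 h0 with h4 | h4
        · exact neg_eq_zero.1 h4
        · exact absurd h4 hb0
      rw [hz, ha0, map_zero, zero_add, mul_eq_zero] at hz0
      rcases hz0 with h4 | h4
      · exact hb0 ((map_eq_zero _).1 h4)
      · exact c.ne_zero h4
    refine ⟨Units.mk0 (-a / b) hcne, Units.ext ?_⟩
    change algebraMap (ZMod p) (GaloisField p m) (-a / b) = c
    have hb' : algebraMap (ZMod p) (GaloisField p m) b ≠ 0 := by
      intro h
      exact hb0 ((map_eq_zero _).1 h)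
    rw [map_div₀, map_neg, div_eq_iff hb', neg_eq_iff_add_eq_zero, ← hz0, hz]
    ring

end

theorem t_SIN (p : ℕ) (hp : p.Prime) (m : ℕ) (hm : 3 ≤ m) :
    Pool.Agent.H771R2.SingerDS.HasSinger p m := by
  classical
  have : Fact p.Prime := ⟨hp⟩
  have hm0 : m ≠ 0 := by omega
  let G := (GaloisField p m)ˣ ⧸ HH p m
  have hFinK : Finite (GaloisField p m) := inferInstance
  let iF : Fintype G := Fintype.ofFinite _
  let D : Finset G := Finset.univ.filter
    (fun g => ∃ x : (GaloisField p m)ˣ, (QuotientGroup.mk x : G) = g ∧ tr p m x = 0)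
  have tr1 : ∀ x y : (GaloisField p m)ˣ, (QuotientGroup.mk x : G) = QuotientGroup.mk y →
      (tr p m x = 0 ↔ tr p m y = 0) := by
    intro x y h
    have := tr_iff p m 1 x y h
    rwa [Units.val_one, one_mul, one_mul] at this
  have memD : ∀ x : (GaloisField p m)ˣ, (QuotientGroup.mk x : G) ∈ D ↔ tr p m x = 0 := by
    intro x
    rw [Finset.mem_filter]
    constructor
    · rintro ⟨-, y, hy, hty⟩
      exact (tr1 y x hy).1 hty
    · intro h
      exact ⟨Finset.mem_univ _, x, rfl, h⟩
  refine ⟨G, inferInstance, iF, inferInstance, D, ?_, ?_, ?_⟩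
  · have h1 := card_pre p m Set.univ
    rw [Set.preimage_univ, Set.ncard_univ, Set.ncard_univ, Nat.card_units,
      GaloisField.card p m hm0, Nat.card_eq_fintype_card] at h1
    rw [h1, mul_comm]
  · have h1 := card_pre p m (D : Set G)
    have h2 : (QuotientGroup.mk ⁻¹' (D : Set G) : Set (GaloisField p m)ˣ) =
        {x : (GaloisField p m)ˣ | tr p m x = 0} := by
      ext x
      exact memD x
    rw [h2, card_ker p m hm0 (tr p m) (Algebra.trace_surjective _ _), finrank_self,
      Set.ncard_coe_finset] at h1
    rw [h1, mul_comm]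
  · intro g hg
    obtain ⟨c, rfl⟩ := QuotientGroup.mk_surjective g
    have h0 : ((D ×ˢ D).filter (fun q : G × G => q.1 * q.2⁻¹ = QuotientGroup.mk c)).card =
        (D.filter (fun y : G => (QuotientGroup.mk c : G) * y ∈ D)).card := by
      refine Finset.card_bij' (fun q _ => q.2) (fun y _ => ((QuotientGroup.mk c : G) * y, y)) ?_ ?_ ?_ ?_
      · rintro ⟨x, y⟩ h
        rw [Finset.mem_filter, Finset.mem_product] at h
        obtain ⟨⟨hx, hy⟩, hxy⟩ := h
        simp only at hx hy hxy
        rw [Finset.mem_filter]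
        refine ⟨hy, ?_⟩
        rw [← hxy, inv_mul_cancel_right]
        exact hx
      · intro y h
        rw [Finset.mem_filter] at h
        rw [Finset.mem_filter, Finset.mem_product]
        exact ⟨⟨h.2, h.1⟩, mul_inv_cancel_right _ _⟩
      · rintro ⟨x, y⟩ h
        rw [Finset.mem_filter] at h
        have hxy := h.2
        simp only at hxy
        simp only [← hxy, inv_mul_cancel_right]
      · intro y _
        rfl
    have h1 := card_pre p m ((D.filter (fun y : G => (QuotientGroup.mk c : G) * y ∈ D) : Finset G) :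
      Set G)
    have h2 : (QuotientGroup.mk ⁻¹' ((D.filter (fun y : G => (QuotientGroup.mk c : G) * y ∈ D) :
        Finset G) : Set G) : Set (GaloisField p m)ˣ) =
        {x : (GaloisField p m)ˣ | ((tr p m).prod (trc p m c)) x = 0} := by
      ext x
      rw [Set.mem_preimage, Finset.mem_coe, Finset.mem_filter, Set.mem_ofPred_eq]
      change _ ↔ (tr p m x, trc p m c x) = 0
      rw [Prod.mk_eq_zero, memD, trc_apply]
      refine and_congr Iff.rfl ?_
      have := memD (c * x)
      rw [Units.val_mul] at this
      exact this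
    rw [h2, card_ker p m hm0 _ (surj2 p m c hg), Set.ncard_coe_finset] at h1
    have h3 : finrank (ZMod p) (ZMod p × ZMod p) = 2 := by
      rw [finrank_prod, finrank_self]
    rw [h3] at h1
    rw [h0, h1, mul_comm]

end Pool.Agent.U454.SY
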